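import Pool.Agent.Helper47.EX.Defs

/-!
# Project EX, module EX-4a: the Fejer kernel
-/

set_option autoImplicit false

namespace Pool.Agent.Helper81.EX

open Pool.Agent.Helper47.EX MeasureTheory

theorem KK_formula (w y : ℝ) (hw : 0 < w) (hy : y ≠ 0) :
    KK w y = (1 - Real.cos (2 * Real.pi * (w * y))) / (2 * Real.pi ^ 2 * w * y ^ 2) := by
  have hπ := Real.pi_pos
  set c : ℝ := 2 * Real.pi * y with hc
  have hc0 : c ≠ 0 := by
    rw [hc]
    positivity
  have hcont : Continuous (fun ξ : ℝ => (1 - |ξ| / w) * Real.cos (2 * Real.pi * ξ * y)) := by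
    fun_prop
  have h1 : KK w y = (∫ ξ in (-w)..0, (1 - |ξ| / w) * Real.cos (2 * Real.pi * ξ * y)) +
      ∫ ξ in (0 : ℝ)..w, (1 - |ξ| / w) * Real.cos (2 * Real.pi * ξ * y) := by
    unfold KK
    rw [intervalIntegral.integral_add_adjacent_intervals (hcont.intervalIntegrable _ _)
      (hcont.intervalIntegrable _ _)]
  have h2 : (∫ ξ in (0 : ℝ)..w, (1 - |ξ| / w) * Real.cos (2 * Real.pi * ξ * y)) =
      (1 - Real.cos (c * w)) / (w * c ^ 2) := by
    have h3 : (∫ ξ in (0 : ℝ)..w, (1 - |ξ| / w) * Real.cos (2 * Real.pi * ξ * y)) =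
        ∫ ξ in (0 : ℝ)..w, (1 - ξ / w) * Real.cos (c * ξ) := by
      apply intervalIntegral.integral_congr
      intro ξ hξ
      rw [Set.uIcc_of_le hw.le] at hξ
      simp only
      rw [abs_of_nonneg hξ.1, hc]
      congr 2
      ring
    rw [h3]
    have h4 : ∀ ξ ∈ Set.uIcc 0 w, HasDerivAt
        (fun ξ : ℝ => (1 - ξ / w) * Real.sin (c * ξ) / c - Real.cos (c * ξ) / (w * c ^ 2))
        ((1 - ξ / w) * Real.cos (c * ξ)) ξ := by
      intro ξ _
      have hs : HasDerivAt (fun ξ : ℝ => Real.sin (c * ξ)) (Real.cos (c * ξ) * c) ξ := by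
        have := (Real.hasDerivAt_sin (c * ξ)).comp ξ ((hasDerivAt_id ξ).const_mul c)
        simpa [Function.comp_def] using this
      have hco : HasDerivAt (fun ξ : ℝ => Real.cos (c * ξ)) (-Real.sin (c * ξ) * c) ξ := by
        have := (Real.hasDerivAt_cos (c * ξ)).comp ξ ((hasDerivAt_id ξ).const_mul c)
        simpa [Function.comp_def] using this
      have hl : HasDerivAt (fun ξ : ℝ => 1 - ξ / w) (-(1 / w)) ξ := by
        have := ((hasDerivAt_id ξ).div_const w).const_sub 1
        simpa using this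
      have := (((hl.mul hs).div_const c).sub (hco.div_const (w * c ^ 2)))
      refine HasDerivAt.congr_deriv (f := fun ξ : ℝ => (1 - ξ / w) * Real.sin (c * ξ) / c -
        Real.cos (c * ξ) / (w * c ^ 2)) this ?_
      field_simp
      ring
    rw [intervalIntegral.integral_eq_sub_of_hasDerivAt h4
      (by apply Continuous.intervalIntegrable; fun_prop)]
    rw [div_self hw.ne']
    simp only [sub_self, zero_mul, zero_div, mul_zero, Real.sin_zero, Real.cos_zero]
    ring
  have h5 : (∫ ξ in (-w)..0, (1 - |ξ| / w) * Real.cos (2 * Real.pi * ξ * y)) =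
      ∫ ξ in (0 : ℝ)..w, (1 - |ξ| / w) * Real.cos (2 * Real.pi * ξ * y) := by
    have h6 := intervalIntegral.integral_comp_neg (a := (0 : ℝ)) (b := w)
      (fun ξ : ℝ => (1 - |ξ| / w) * Real.cos (2 * Real.pi * ξ * y))
    rw [neg_zero] at h6
    rw [← h6]
    apply intervalIntegral.integral_congr
    intro ξ _
    simp only [abs_neg]
    congr 1
    rw [← Real.cos_neg]
    congr 1
    ring
  rw [h1, h5, h2, hc]
  have h7 : (2 * Real.pi * y * w) = 2 * Real.pi * (w * y) := by ring
  rw [h7]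
  field_simp
  ring

theorem KK_zero (w : ℝ) (hw : 0 < w) : KK w 0 = w := by
  have hcont : Continuous (fun ξ : ℝ => (1 - |ξ| / w)) := by
    fun_prop
  have h0 : KK w 0 = ∫ ξ in (-w)..w, (1 - |ξ| / w) := by
    unfold KK
    apply intervalIntegral.integral_congr
    intro ξ _
    simp
  have h1 : KK w 0 = (∫ ξ in (-w)..0, (1 - |ξ| / w)) + ∫ ξ in (0 : ℝ)..w, (1 - |ξ| / w) := by
    rw [h0, intervalIntegral.integral_add_adjacent_intervals (hcont.intervalIntegrable _ _)
      (hcont.intervalIntegrable _ _)]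
  have h2 : (∫ ξ in (0 : ℝ)..w, (1 - |ξ| / w)) = w / 2 := by
    have h3 : (∫ ξ in (0 : ℝ)..w, (1 - |ξ| / w)) = ∫ ξ in (0 : ℝ)..w, (1 - ξ / w) := by
      apply intervalIntegral.integral_congr
      intro ξ hξ
      rw [Set.uIcc_of_le hw.le] at hξ
      simp only
      rw [abs_of_nonneg hξ.1]
    rw [h3, intervalIntegral.integral_sub (by simp) (by apply Continuous.intervalIntegrable; fun_prop),
      intervalIntegral.integral_div, integral_id]
    simp
    field_simp
    ring
  have h5 : (∫ ξ in (-w)..0, (1 - |ξ| / w)) = ∫ ξ in (0 : ℝ)..w, (1 - |ξ| / w) := by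
    have h6 := intervalIntegral.integral_comp_neg (a := (0 : ℝ)) (b := w)
      (fun ξ : ℝ => (1 - |ξ| / w))
    rw [neg_zero] at h6
    rw [← h6]
    apply intervalIntegral.integral_congr
    intro ξ _
    simp only [abs_neg]
  rw [h1, h5, h2]
  ring

theorem KK_nonneg (w y : ℝ) (hw : 0 < w) : 0 ≤ KK w y := by
  by_cases hy : y = 0
  · rw [hy, KK_zero w hw]
    exact hw.le
  · rw [KK_formula w y hw hy]
    have := Real.cos_le_one (2 * Real.pi * (w * y))
    apply div_nonneg (by linarith)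
    positivity

theorem KK_le (w y : ℝ) (hw : 0 < w) : KK w y ≤ w := by
  by_cases hy : y = 0
  · rw [hy, KK_zero w hw]
  · rw [KK_formula w y hw hy]
    have hπ := Real.pi_pos
    have h1 := Real.one_sub_sq_div_two_le_cos (x := 2 * Real.pi * (w * y))
    rw [div_le_iff₀ (by positivity)]
    nlinarith [h1]

theorem KK_lower (w y : ℝ) (hw : 0 < w) (h : |w * y| ≤ 1 / 2) :
    4 / Real.pi ^ 2 * w ≤ KK w y := by
  have hπ := Real.pi_pos
  have hπ3 := Real.pi_gt_three
  by_cases hy : y = 0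
  · rw [hy, KK_zero w hw]
    have : 4 / Real.pi ^ 2 ≤ 1 := by
      rw [div_le_one (by positivity)]
      nlinarith
    nlinarith
  · rw [KK_formula w y hw hy]
    have h0 : |2 * Real.pi * (w * y)| ≤ Real.pi := by
      rw [abs_mul, abs_of_pos (by positivity : (0 : ℝ) < 2 * Real.pi)]
      nlinarith
    have h1 := Real.cos_le_one_sub_mul_cos_sq h0
    rw [le_div_iff₀ (by positivity)]
    have h2 : 2 / Real.pi ^ 2 * (2 * Real.pi * (w * y)) ^ 2 = 8 * w ^ 2 * y ^ 2 := by
      field_simp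
      ring
    rw [h2] at h1
    have h3 : 4 / Real.pi ^ 2 * w * (2 * Real.pi ^ 2 * w * y ^ 2) = 8 * w ^ 2 * y ^ 2 := by
      field_simp
      ring
    rw [h3]
    linarith

theorem KK_tail (w y : ℝ) (hw : 0 < w) (hy : y ≠ 0) :
    KK w y ≤ 1 / (Real.pi ^ 2 * w * y ^ 2) := by
  rw [KK_formula w y hw hy]
  have hπ := Real.pi_pos
  have h1 := Real.neg_one_le_cos (2 * Real.pi * (w * y))
  rw [div_le_div_iff₀ (by positivity) (by positivity)]
  have h2 : 0 < Real.pi ^ 2 * w * y ^ 2 := by positivity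
  nlinarith

end Pool.Agent.Helper81.EX
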