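import Pool.Agent.Helper81.EX.Kernel

/-!
# Project EX, module EX-4b: digit weights and the upper bound for windows
-/

set_option autoImplicit false

namespace Pool.Agent.Helper81.EX

open Pool.Agent.Helper47.EX MeasureTheory Finset

theorem sum_range_block {R : Type*} [AddCommMonoid R] (n B : ℕ) (f : ℕ → R) :
    ∑ u ∈ range (n * B), f u = ∑ d ∈ range B, ∑ u ∈ range n, f (n * d + u) := by
  induction B with
  | zero => simp
  | succ B ih =>
    rw [Nat.mul_succ, Finset.sum_range_add, ih, Finset.sum_range_succ]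

theorem sum_digits {R : Type*} [CommSemiring R] (B : ℕ) (hB : 0 < B) (f : ℕ → ℕ → R) (m : ℕ) :
    ∑ u ∈ range (B ^ m), ∏ k ∈ range m, f k (u / B ^ k % B) =
      ∏ k ∈ range m, ∑ d ∈ range B, f k d := by
  induction m with
  | zero => simp
  | succ m ih =>
    rw [Finset.prod_range_succ, ← ih]
    have h1 : ∑ u ∈ range (B ^ (m + 1)), ∏ k ∈ range (m + 1), f k (u / B ^ k % B) =
        ∑ d ∈ range B, ∑ u ∈ range (B ^ m),
          ∏ k ∈ range (m + 1), f k ((B ^ m * d + u) / B ^ k % B) := by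
      rw [pow_succ, sum_range_block]
    rw [h1, Finset.mul_sum]
    apply Finset.sum_congr rfl
    intro d hd
    rw [Finset.sum_mul]
    apply Finset.sum_congr rfl
    intro u hu
    have hd' := Finset.mem_range.mp hd
    have hu' := Finset.mem_range.mp hu
    rw [Finset.prod_range_succ]
    congr 1
    · apply Finset.prod_congr rfl
      intro k hk
      have hk' := Finset.mem_range.mp hk
      congr 1
      have h2 : B ^ m = B ^ k * (B * B ^ (m - k - 1)) := by
        rw [← pow_succ', ← pow_add]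
        congr 1
        omega
      have h3 : B ^ m * d + u = u + B ^ k * (B * (B ^ (m - k - 1) * d)) := by
        rw [h2]
        ring
      rw [h3, Nat.add_mul_div_left _ _ (by positivity), Nat.add_mul_mod_self_left]
    · congr 1
      rw [Nat.mul_add_div (by positivity), Nat.div_eq_of_lt hu', add_zero, Nat.mod_eq_of_lt hd']

theorem W2_sum (p : ℕ → ℝ) (hp : Par p) (m : ℕ) : ∑ u ∈ range (2 ^ m), W2 p m u = 1 := by
  unfold W2
  rw [sum_digits 2 two_pos (fun k d => p k ^ d / (1 + p k)) m]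
  apply Finset.prod_eq_one
  intro k _
  have h := (hp k).1
  rw [Finset.sum_range_succ, Finset.sum_range_one]
  have h0 : (1 + p k) ≠ 0 := by positivity
  field_simp

theorem W3_sum (q : ℕ → ℝ) (hq : Par q) (w : ℕ) : ∑ v ∈ range (3 ^ w), W3 q w v = 1 := by
  unfold W3
  rw [sum_digits 3 (by norm_num) (fun k d => (q k)⁻¹ ^ d / (1 + (q k)⁻¹ + (q k)⁻¹ ^ 2)) w]
  apply Finset.prod_eq_one
  intro k _
  have h := (hq k).1
  have hr : 0 < (q k)⁻¹ := by positivity
  rw [Finset.sum_range_succ, Finset.sum_range_succ, Finset.sum_range_one]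
  have h0 : (1 + (q k)⁻¹ + (q k)⁻¹ ^ 2) ≠ 0 := by positivity
  rw [← add_div, ← add_div, pow_zero, pow_one]
  exact div_self h0

theorem W2_nonneg (p : ℕ → ℝ) (hp : Par p) (m u : ℕ) : 0 ≤ W2 p m u := by
  unfold W2
  apply Finset.prod_nonneg
  intro k _
  have h := (hp k).1
  positivity

theorem W3_nonneg (q : ℕ → ℝ) (hq : Par q) (w v : ℕ) : 0 ≤ W3 q w v := by
  unfold W3
  apply Finset.prod_nonneg
  intro k _
  have h := (hq k).1
  positivity

theorem e_add (a b : ℝ) : e (a + b) = e a * e b := by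
  unfold e
  rw [← Complex.exp_add]
  congr 1
  push_cast
  ring

theorem e_zero : e 0 = 1 := by
  unfold e
  simp

theorem e_nat_mul (n : ℕ) (a : ℝ) : e (n * a) = e a ^ n := by
  unfold e
  rw [← Complex.exp_nat_mul]
  congr 1
  push_cast
  ring

theorem norm_e (a : ℝ) : ‖e a‖ = 1 := by
  unfold e
  exact Complex.norm_exp_ofReal_mul_I _

theorem e_re (a : ℝ) : (e a).re = Real.cos (2 * Real.pi * a) := by
  unfold e
  exact Complex.exp_ofReal_mul_I_re _

theorem e_im (a : ℝ) : (e a).im = Real.sin (2 * Real.pi * a) := by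
  unfold e
  exact Complex.exp_ofReal_mul_I_im _

theorem e_sum {ι : Type*} (S : Finset ι) (f : ι → ℝ) : e (∑ i ∈ S, f i) = ∏ i ∈ S, e (f i) := by
  classical
  induction S using Finset.induction_on with
  | empty => simp [e_zero]
  | insert a S ha ih => rw [Finset.sum_insert ha, Finset.prod_insert ha, e_add, ih]

theorem digits_sum (B : ℕ) (m u : ℕ) : ∑ k ∈ range m, u / B ^ k % B * B ^ k = u % B ^ m := by
  induction m with
  | zero => simp [Nat.mod_one]
  | succ m ih =>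
    rw [Finset.sum_range_succ, ih, Nat.mod_pow_succ]
    ring

theorem e_digits (B : ℕ) (m u : ℕ) (hu : u < B ^ m) (ξ : ℝ) :
    e (u * ξ) = ∏ k ∈ range m, e ((B : ℝ) ^ k * ξ) ^ (u / B ^ k % B) := by
  have h1 : (u : ℝ) * ξ = ∑ k ∈ range m, ((u / B ^ k % B : ℕ) : ℝ) * ((B : ℝ) ^ k * ξ) := by
    have h2 := digits_sum B m u
    rw [Nat.mod_eq_of_lt hu] at h2
    have h3 : (u : ℝ) = ∑ k ∈ range m, ((u / B ^ k % B : ℕ) : ℝ) * (B : ℝ) ^ k := by
      exact_mod_cast h2.symm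
    rw [h3, Finset.sum_mul]
    apply Finset.sum_congr rfl
    intro k _
    rw [← h2]
    ring
  rw [h1, e_sum]
  apply Finset.prod_congr rfl
  intro k _
  rw [e_nat_mul]

theorem sum_W2 (p : ℕ → ℝ) (m : ℕ) (ξ : ℝ) :
    ∑ u ∈ range (2 ^ m), (W2 p m u : ℂ) * e (u * ξ) =
      ∏ k ∈ range m, (1 + (p k : ℂ) * e (2 ^ k * ξ)) / (1 + (p k : ℂ)) := by
  have h1 := sum_digits 2 two_pos
    (fun k d => (p k : ℂ) ^ d / (1 + (p k : ℂ)) * e ((2 : ℝ) ^ k * ξ) ^ d) m
  have h2 : ∑ u ∈ range (2 ^ m), (W2 p m u : ℂ) * e (u * ξ) =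
      ∑ u ∈ range (2 ^ m), ∏ k ∈ range m, (p k : ℂ) ^ (u / 2 ^ k % 2) / (1 + (p k : ℂ)) *
        e ((2 : ℝ) ^ k * ξ) ^ (u / 2 ^ k % 2) := by
    apply Finset.sum_congr rfl
    intro u hu
    have h3 := e_digits 2 m u (Finset.mem_range.mp hu) ξ
    rw [Nat.cast_ofNat] at h3
    rw [h3, Finset.prod_mul_distrib]
    unfold W2
    push_cast
    rfl
  rw [h2, h1]
  apply Finset.prod_congr rfl
  intro k _
  rw [Finset.sum_range_succ, Finset.sum_range_one]
  ring

theorem sum_W3 (q : ℕ → ℝ) (w : ℕ) (ξ : ℝ) :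
    ∑ v ∈ range (3 ^ w), (W3 q w v : ℂ) * e (v * ξ) =
      ∏ k ∈ range w, (1 + (((q k)⁻¹ : ℝ) : ℂ) * e (3 ^ k * ξ) +
        ((((q k)⁻¹ : ℝ) : ℂ) * e (3 ^ k * ξ)) ^ 2) /
          (1 + (((q k)⁻¹ : ℝ) : ℂ) + (((q k)⁻¹ : ℝ) : ℂ) ^ 2) := by
  have h1 := sum_digits 3 (by norm_num : 0 < 3)
    (fun k d => (((q k)⁻¹ : ℝ) : ℂ) ^ d / (1 + (((q k)⁻¹ : ℝ) : ℂ) + (((q k)⁻¹ : ℝ) : ℂ) ^ 2) *
      e ((3 : ℝ) ^ k * ξ) ^ d) w
  have h2 : ∑ v ∈ range (3 ^ w), (W3 q w v : ℂ) * e (v * ξ) =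
      ∑ v ∈ range (3 ^ w), ∏ k ∈ range w, (((q k)⁻¹ : ℝ) : ℂ) ^ (v / 3 ^ k % 3) /
        (1 + (((q k)⁻¹ : ℝ) : ℂ) + (((q k)⁻¹ : ℝ) : ℂ) ^ 2) *
        e ((3 : ℝ) ^ k * ξ) ^ (v / 3 ^ k % 3) := by
    apply Finset.sum_congr rfl
    intro v hv
    have h3 := e_digits 3 w v (Finset.mem_range.mp hv) ξ
    rw [Nat.cast_ofNat] at h3
    rw [h3, Finset.prod_mul_distrib]
    unfold W3
    push_cast
    rfl
  rw [h2, h1]
  apply Finset.prod_congr rfl
  intro k _
  rw [Finset.sum_range_succ, Finset.sum_range_succ, Finset.sum_range_one]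
  ring

theorem norm_sum_W2 (p : ℕ → ℝ) (hp : Par p) (m : ℕ) (ξ : ℝ) :
    ‖∑ u ∈ range (2 ^ m), (W2 p m u : ℂ) * e (u * ξ)‖ = aa p m ξ := by
  rw [sum_W2, norm_prod]
  unfold aa phi2
  apply Finset.prod_congr rfl
  intro k _
  rw [norm_div]
  congr 1
  have h := (hp k).1
  rw [show (1 + (p k : ℂ)) = ((1 + p k : ℝ) : ℂ) by push_cast; rfl, Complex.norm_real,
    Real.norm_of_nonneg (by linarith)]

theorem norm_sum_W3 (q : ℕ → ℝ) (hq : Par q) (w : ℕ) (ξ : ℝ) :
    ‖∑ v ∈ range (3 ^ w), (W3 q w v : ℂ) * e (v * ξ)‖ = bb q w ξ := by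
  rw [sum_W3, norm_prod]
  unfold bb phi3
  apply Finset.prod_congr rfl
  intro k _
  rw [norm_div]
  congr 1
  have h := (hq k).1
  have h1 : 0 < (q k)⁻¹ := by positivity
  rw [show (1 + (((q k)⁻¹ : ℝ) : ℂ) + (((q k)⁻¹ : ℝ) : ℂ) ^ 2) =
    ((1 + (q k)⁻¹ + (q k)⁻¹ ^ 2 : ℝ) : ℂ) by push_cast; rfl, Complex.norm_real,
    Real.norm_of_nonneg (by positivity)]

theorem W_cos (p q : ℕ → ℝ) (hp : Par p) (hq : Par q) (m w : ℕ) (θ τ ξ : ℝ) :
    |∑ u ∈ range (2 ^ m), ∑ v ∈ range (3 ^ w),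
      W2 p m u * W3 q w v * Real.cos (2 * Real.pi * ξ * (u - θ * v - τ))|
      ≤ aa p m ξ * bb q w (θ * ξ) := by
  rw [← norm_sum_W2 p hp, ← norm_sum_W3 q hq]
  set A := ∑ u ∈ range (2 ^ m), (W2 p m u : ℂ) * e (u * ξ) with hA
  set B := ∑ v ∈ range (3 ^ w), (W3 q w v : ℂ) * e (v * (θ * ξ)) with hB
  have h1 : ∑ u ∈ range (2 ^ m), ∑ v ∈ range (3 ^ w),
      W2 p m u * W3 q w v * Real.cos (2 * Real.pi * ξ * (u - θ * v - τ)) =
      (e (-(τ * ξ)) * (A * (starRingEnd ℂ) B)).re := by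
    rw [hA, hB, map_sum, Finset.sum_mul_sum, Finset.mul_sum, Complex.re_sum]
    apply Finset.sum_congr rfl
    intro u _
    rw [Finset.mul_sum, Complex.re_sum]
    apply Finset.sum_congr rfl
    intro v _
    rw [map_mul, Complex.conj_ofReal]
    have h2 : (starRingEnd ℂ) (e (v * (θ * ξ))) = e (-(v * (θ * ξ))) := by
      unfold e
      rw [← Complex.exp_conj]
      congr 1
      rw [map_mul, Complex.conj_I, Complex.conj_ofReal]
      push_cast
      ring
    rw [h2]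
    have h3 : e (-(τ * ξ)) * ((W2 p m u : ℂ) * e (u * ξ) * ((W3 q w v : ℂ) * e (-(v * (θ * ξ))))) =
        ((W2 p m u * W3 q w v : ℝ) : ℂ) * e (ξ * (u - θ * v - τ)) := by
      have h4 : ξ * ((u : ℝ) - θ * v - τ) = -(τ * ξ) + (u * ξ + -(v * (θ * ξ))) := by ring
      rw [h4, e_add, e_add]
      push_cast
      ring
    rw [h3, Complex.re_ofReal_mul, e_re]
    congr 2
    ring
  rw [h1]
  refine (Complex.abs_re_le_norm _).trans ?_
  rw [norm_mul, norm_mul, norm_e, one_mul, RCLike.norm_conj]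

theorem continuous_e : Continuous e := by
  unfold e
  fun_prop

theorem continuous_phi2 (p : ℝ) : Continuous (phi2 p) := by
  unfold phi2
  have := continuous_e
  fun_prop

theorem continuous_phi3 (q : ℝ) : Continuous (phi3 q) := by
  unfold phi3
  have := continuous_e
  fun_prop

theorem continuous_aa (p : ℕ → ℝ) (m : ℕ) : Continuous (aa p m) := by
  unfold aa
  apply continuous_finset_prod
  intro k _
  exact (continuous_phi2 (p k)).comp (continuous_const.mul continuous_id)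

theorem continuous_bb (q : ℕ → ℝ) (w : ℕ) : Continuous (bb q w) := by
  unfold bb
  apply continuous_finset_prod
  intro k _
  exact (continuous_phi3 (q k)).comp (continuous_const.mul continuous_id)

/-- the weighted sum of the kernel is an integral of trigonometric sums -/
theorem sum_KK (p q : ℕ → ℝ) (m w : ℕ) (θ τ b : ℝ) :
    ∑ u ∈ range (2 ^ m), ∑ v ∈ range (3 ^ w), W2 p m u * W3 q w v * KK b (u - θ * v - τ) =
      ∫ ξ in (-b)..b, (1 - |ξ| / b) * ∑ u ∈ range (2 ^ m), ∑ v ∈ range (3 ^ w),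
        W2 p m u * W3 q w v * Real.cos (2 * Real.pi * ξ * (u - θ * v - τ)) := by
  have h1 : ∀ u ∈ range (2 ^ m), ∀ v ∈ range (3 ^ w), W2 p m u * W3 q w v * KK b (u - θ * v - τ) =
      ∫ ξ in (-b)..b, (1 - |ξ| / b) *
        (W2 p m u * W3 q w v * Real.cos (2 * Real.pi * ξ * (u - θ * v - τ))) := by
    intro u _ v _
    unfold KK
    rw [← intervalIntegral.integral_const_mul]
    apply intervalIntegral.integral_congr
    intro ξ _
    simp only
    ring
  rw [Finset.sum_congr rfl (fun u hu => Finset.sum_congr rfl (fun v hv => h1 u hu v hv))]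
  have h2 : ∀ u ∈ range (2 ^ m), ∑ v ∈ range (3 ^ w), (∫ ξ in (-b)..b, (1 - |ξ| / b) *
        (W2 p m u * W3 q w v * Real.cos (2 * Real.pi * ξ * (u - θ * v - τ)))) =
      ∫ ξ in (-b)..b, ∑ v ∈ range (3 ^ w), (1 - |ξ| / b) *
        (W2 p m u * W3 q w v * Real.cos (2 * Real.pi * ξ * (u - θ * v - τ))) := by
    intro u _
    rw [intervalIntegral.integral_finset_sum]
    intro v _
    apply Continuous.intervalIntegrable
    fun_prop
  rw [Finset.sum_congr rfl h2, ← intervalIntegral.integral_finset_sum]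
  · apply intervalIntegral.integral_congr
    intro ξ _
    simp only
    rw [Finset.mul_sum]
    apply Finset.sum_congr rfl
    intro u _
    rw [Finset.mul_sum]
  · intro u _
    apply Continuous.intervalIntegrable
    fun_prop

theorem window_upper (p q : ℕ → ℝ) (hp : Par p) (hq : Par q) (m w : ℕ) (θ τ : ℝ) :
    ∑ u ∈ range (2 ^ m), ∑ v ∈ range (3 ^ w),
      (if |(u : ℝ) - θ * v - τ| ≤ 1 then W2 p m u * W3 q w v else 0)
      ≤ 5 / 2 ^ m * EE p q m w θ := by
  have hπ := Real.pi_pos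
  have hπ2 : Real.pi ^ 2 ≤ 10 := by
    have := Real.pi_lt_d2
    nlinarith
  have h1 : ∑ u ∈ range (2 ^ m), ∑ v ∈ range (3 ^ w),
      (if |(u : ℝ) - θ * v - τ| ≤ 1 then W2 p m u * W3 q w v else 0) ≤
      5 * ∑ u ∈ range (2 ^ m), ∑ v ∈ range (3 ^ w),
        W2 p m u * W3 q w v * KK (1 / 2) (u - θ * v - τ) := by
    rw [Finset.mul_sum]
    apply Finset.sum_le_sum
    intro u _
    rw [Finset.mul_sum]
    apply Finset.sum_le_sum
    intro v _
    have hW := mul_nonneg (W2_nonneg p hp m u) (W3_nonneg q hq w v)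
    have hK := KK_nonneg (1 / 2) ((u : ℝ) - θ * v - τ) (by norm_num)
    split_ifs with hif
    · have h2 := KK_lower (1 / 2) ((u : ℝ) - θ * v - τ) (by norm_num) (by
        rw [abs_mul, abs_of_pos (by norm_num : (0 : ℝ) < 1 / 2)]
        linarith)
      have h3 : (1 : ℝ) ≤ 5 * (4 / Real.pi ^ 2 * (1 / 2)) := by
        have : 5 * (4 / Real.pi ^ 2 * (1 / 2)) = 10 / Real.pi ^ 2 := by ring
        rw [this, le_div_iff₀ (by positivity)]
        linarith
      have h4 : (1 : ℝ) ≤ 5 * KK (1 / 2) ((u : ℝ) - θ * v - τ) := by linarith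
      nlinarith
    · positivity
  refine h1.trans ?_
  rw [sum_KK]
  unfold EE
  have h5 : 5 / 2 ^ m * (2 ^ m * ∫ ξ in (-(1 / 2 : ℝ))..(1 / 2), aa p m ξ * bb q w (θ * ξ)) =
      5 * ∫ ξ in (-(1 / 2 : ℝ))..(1 / 2), aa p m ξ * bb q w (θ * ξ) := by
    field_simp
  rw [h5]
  apply mul_le_mul_of_nonneg_left _ (by norm_num : (0 : ℝ) ≤ 5)
  apply intervalIntegral.integral_mono_on (by norm_num)
  · apply Continuous.intervalIntegrable
    fun_prop
  · apply Continuous.intervalIntegrable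
    exact (continuous_aa p m).mul ((continuous_bb q w).comp (continuous_const.mul continuous_id))
  · intro ξ hξ
    have h6 := W_cos p q hp hq m w θ τ ξ
    have h7 : |ξ| ≤ 1 / 2 := abs_le.mpr hξ
    have h8 : 0 ≤ 1 - |ξ| / (1 / 2) := by
      have : |ξ| / (1 / 2) ≤ 1 := by
        rw [div_le_one (by norm_num)]
        exact h7
      linarith
    have h9 : 1 - |ξ| / (1 / 2) ≤ 1 := by
      have : 0 ≤ |ξ| / (1 / 2) := by positivity
      linarith
    refine le_trans (le_abs_self _) ?_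
    rw [abs_mul, abs_of_nonneg h8]
    calc (1 - |ξ| / (1 / 2)) * |∑ u ∈ range (2 ^ m), ∑ v ∈ range (3 ^ w),
        W2 p m u * W3 q w v * Real.cos (2 * Real.pi * ξ * (u - θ * v - τ))| ≤
        1 * |∑ u ∈ range (2 ^ m), ∑ v ∈ range (3 ^ w),
        W2 p m u * W3 q w v * Real.cos (2 * Real.pi * ξ * (u - θ * v - τ))| :=
          mul_le_mul_of_nonneg_right h9 (abs_nonneg _)
      _ ≤ _ := by rw [one_mul]; exact h6

end Pool.Agent.Helper81.EX
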